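import Pool.Agent.H89.ZS.Main

/-!
# Zero sets of Hölder and smooth analytic functions in Lipschitz domains

The library module `ZeroSets` of this problem proves that the zero sets of the classes `C^γ(G)`,
`γ ≥ 1` an integer, in the closure and on the boundary of a bounded Lipschitz domain do not depend on
`γ`. Here the same is proved down to order zero: the analytic functions which are Hölder continuous of
an arbitrary order `α > 0` have the same zero sets as the class `C^γ(G)` for every `γ`, hence all classes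
between some `C^γ(G)` and the union of the Hölder classes have the same zero sets. Moreover the smooth
function can be chosen of size `|f|^M` in the whole closure, for every large integer `M`: its zeros have
`M` times the multiplicities of the zeros of `f`.

Idea. Let `|f (z) - f (w)|^p ≤ L |z - w|`. There is a Lipschitz function `ρ` comparable with `|f|^p` on
`clos G`, and a function `t` with `c ρ^4 ≤ t ≤ C ρ^2` and `|∇ t| ≤ C ρ`. For a smooth field `τ`
pointing into `G` put `F (z) = f (z + κ t(z)^p τ(z))`, in a neighbourhood `Ω` of `clos G` without the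
zeros, of width about `ρ^(4 p)`. By Cauchy's estimate the derivative of `f` at the shifted point is
`O ((t^p)^(1/p - 1))`, which is unbounded, but it is multiplied by the derivative of the shift, of size
`t^(p - 1) ρ`; the product is `O (ρ) = O (|F|)`. So `∂̄ F / F` is bounded in `Ω` and `F` can be corrected
to a holomorphic function `g` of size `|f|`; high powers of `g` are smooth up to the boundary by Cauchy's
estimates in `Ω`. (In the library `p = 1`, where the derivative of `f` is bounded.)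
-/

set_option autoImplicit false

open Complex
open scoped NNReal

namespace Pool.Agent.Results.MP_8a09e6_an.HoelderZeroSets

/-- A bounded Lipschitz domain: a bounded connected open set `G ⊂ ℂ` such that near each boundary
point `ζ`, after a rotation (multiplication by a unimodular `u`), the set `G` is the part of an open
box lying strictly above the graph of a Lipschitz function `ψ` (so in that box the boundary is the
graph, and `G` lies on one side of it). -/
def IsLipschitzDomain (G : Set ℂ) : Prop :=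
  Bornology.IsBounded G ∧ IsOpen G ∧ IsConnected G ∧
    ∀ ζ ∈ frontier G, ∃ (u : ℂ) (r h : ℝ) (K : ℝ≥0) (ψ : ℝ → ℝ),
      ‖u‖ = 1 ∧ 0 < r ∧ 0 < h ∧ LipschitzWith K ψ ∧
      ∀ x y : ℝ, |x| < r → |y| < h → (ζ + u * (x + y * I) ∈ G ↔ ψ x < y)

/-- `f ∈ C^γ(G)`: `f` is analytic in `G`, its `γ`-th derivative is uniformly continuous on `G`, and
on `clos G` the letter `f` denotes the continuous extension. -/
def SmoothClass (G : Set ℂ) (γ : ℕ) (f : ℂ → ℂ) : Prop :=
  DifferentiableOn ℂ f G ∧ UniformContinuousOn (iteratedDeriv γ f) G ∧ ContinuousOn f (closure G)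

/-- The analytic Hölder class of order `α`: `f` is analytic in `G` and Hölder continuous of order `α`
on `G`, and on `clos G` the letter `f` denotes the continuous extension. -/
def HolderClass (G : Set ℂ) (α : ℝ) (f : ℂ → ℂ) : Prop :=
  DifferentiableOn ℂ f G ∧ (∃ L : ℝ, ∀ z ∈ G, ∀ w ∈ G, ‖f z - f w‖ ≤ L * ‖z - w‖ ^ α) ∧
    ContinuousOn f (closure G)

/-- The family of zero sets in `clos G` of a class `X` of functions (`f ≢ 0` in `G`). -/
def ZeroClos (G : Set ℂ) (X : (ℂ → ℂ) → Prop) : Set (Set ℂ) :=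
  {E | ∃ f : ℂ → ℂ, X f ∧ (∃ z ∈ G, f z ≠ 0) ∧ E = {z ∈ closure G | f z = 0}}

/-- The family of zero sets on `∂G` of a class `X` of functions (`f ≢ 0` in `G`). -/
def ZeroBdry (G : Set ℂ) (X : (ℂ → ℂ) → Prop) : Set (Set ℂ) :=
  {E | ∃ f : ℂ → ℂ, X f ∧ (∃ z ∈ G, f z ≠ 0) ∧ E = {z ∈ frontier G | f z = 0}}

theorem sub_of {G : Set ℂ} (hG : IsLipschitzDomain G) {X Y : (ℂ → ℂ) → Prop}
    (hX : ∀ f, X f → ∃ α : ℝ, 0 < α ∧ HolderClass G α f)
    (hY : ∃ γ : ℕ, ∀ f, SmoothClass G γ f → Y f) :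
    ZeroClos G X ⊆ ZeroClos G Y ∧ ZeroBdry G X ⊆ ZeroBdry G Y := by
  obtain ⟨γ, hγ⟩ := hY
  constructor
  · rintro E ⟨f, hf, ⟨z₀, hz₀, hfz₀⟩, rfl⟩
    obtain ⟨α, hα, hfα⟩ := hX f hf
    obtain ⟨f₁, hf₁, hz⟩ := Pool.Agent.H89.ZS.same_zeros hG hα hfα γ
    refine ⟨f₁, hγ f₁ hf₁, ⟨z₀, hz₀, fun h => hfz₀ ((hz z₀ (subset_closure hz₀)).1 h)⟩, ?_⟩
    ext z
    constructor
    · rintro ⟨h1, h2⟩
      exact ⟨h1, (hz z h1).2 h2⟩
    · rintro ⟨h1, h2⟩
      exact ⟨h1, (hz z h1).1 h2⟩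
  · rintro E ⟨f, hf, ⟨z₀, hz₀, hfz₀⟩, rfl⟩
    obtain ⟨α, hα, hfα⟩ := hX f hf
    obtain ⟨f₁, hf₁, hz⟩ := Pool.Agent.H89.ZS.same_zeros hG hα hfα γ
    refine ⟨f₁, hγ f₁ hf₁, ⟨z₀, hz₀, fun h => hfz₀ ((hz z₀ (subset_closure hz₀)).1 h)⟩, ?_⟩
    ext z
    constructor
    · rintro ⟨h1, h2⟩
      exact ⟨h1, (hz z (frontier_subset_closure h1)).2 h2⟩
    · rintro ⟨h1, h2⟩
      exact ⟨h1, (hz z (frontier_subset_closure h1)).1 h2⟩

theorem eq_of {G : Set ℂ} (hG : IsLipschitzDomain G) {X Y : (ℂ → ℂ) → Prop}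
    (hX : ∀ f, X f → ∃ α : ℝ, 0 < α ∧ HolderClass G α f)
    (hX' : ∃ γ : ℕ, ∀ f, SmoothClass G γ f → X f)
    (hY : ∀ f, Y f → ∃ α : ℝ, 0 < α ∧ HolderClass G α f)
    (hY' : ∃ γ : ℕ, ∀ f, SmoothClass G γ f → Y f) :
    ZeroClos G X = ZeroClos G Y ∧ ZeroBdry G X = ZeroBdry G Y :=
  ⟨Set.Subset.antisymm (sub_of hG hX hY').1 (sub_of hG hY hX').1,
    Set.Subset.antisymm (sub_of hG hX hY').2 (sub_of hG hY hX').2⟩

/-- **Zero sets of analytic functions of any positive Hölder order in a Lipschitz domain.** -/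
theorem result : ∀ G : Set ℂ, IsLipschitzDomain G →
    -- the question: all classes `C^γ(G)`, `γ ≥ 1`, have the same zero sets, in `clos G` and on `∂G`
    (∀ γ γ' : ℕ, 1 ≤ γ → 1 ≤ γ' →
      ZeroClos G (SmoothClass G γ) = ZeroClos G (SmoothClass G γ') ∧
      ZeroBdry G (SmoothClass G γ) = ZeroBdry G (SmoothClass G γ')) ∧
    -- these are also the zero sets of the Hölder class of every order `0 < α ≤ 1`
    (∀ α : ℝ, 0 < α → α ≤ 1 → ∀ γ : ℕ, 1 ≤ γ →
      ZeroClos G (HolderClass G α) = ZeroClos G (SmoothClass G γ) ∧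
      ZeroBdry G (HolderClass G α) = ZeroBdry G (SmoothClass G γ)) ∧
    -- and of all classes between some `C^γ(G)` and the union of the Hölder classes
    (∀ X : (ℂ → ℂ) → Prop, (∃ γ : ℕ, ∀ f, SmoothClass G γ f → X f) →
      (∀ f, X f → ∃ α : ℝ, 0 < α ∧ HolderClass G α f) → ∀ γ : ℕ, 1 ≤ γ →
      ZeroClos G X = ZeroClos G (SmoothClass G γ) ∧
      ZeroBdry G X = ZeroBdry G (SmoothClass G γ)) ∧
    -- a Hölder function is comparable, after raising to any large power, with a smooth one, which is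
    -- analytic also at all boundary points where it does not vanish
    (∀ (α : ℝ) (f : ℂ → ℂ), HolderClass G α f → ∀ k p M : ℕ, 1 ≤ α * p →
      p * (4 * p * k + 2) ≤ M →
      ∃ f₁ : ℂ → ℂ, SmoothClass G k f₁ ∧
        (∃ O : Set ℂ, IsOpen O ∧ G ⊆ O ∧ (∀ z ∈ closure G, f z ≠ 0 → z ∈ O) ∧
          DifferentiableOn ℂ f₁ O) ∧
        ∃ a b : ℝ, 0 < a ∧ 0 < b ∧
          ∀ z ∈ closure G, a * ‖f z‖ ^ M ≤ ‖f₁ z‖ ∧ ‖f₁ z‖ ≤ b * ‖f z‖ ^ M) := by
  intro G hG
  have hS : ∀ γ : ℕ, 1 ≤ γ → ∀ f, SmoothClass G γ f → ∃ α : ℝ, 0 < α ∧ HolderClass G α f :=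
    fun γ hγ f hf => ⟨1, one_pos, Pool.Agent.H89.ZS.holder_of_smooth hG hγ hf le_rfl⟩
  have hS' : ∀ γ : ℕ, ∃ γ' : ℕ, ∀ f, SmoothClass G γ' f → SmoothClass G γ f :=
    fun γ => ⟨γ, fun _ h => h⟩
  refine ⟨fun γ γ' hγ hγ' => eq_of hG (hS γ hγ) (hS' γ) (hS γ' hγ') (hS' γ'), ?_, ?_, ?_⟩
  · intro α hα hα1 γ hγ
    exact eq_of hG (fun f hf => ⟨α, hα, hf⟩)
      ⟨1, fun f hf => Pool.Agent.H89.ZS.holder_of_smooth hG le_rfl hf hα1⟩ (hS γ hγ) (hS' γ)
  · intro X hX' hX γ hγ
    exact eq_of hG hX hX' (hS γ hγ) (hS' γ)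
  · intro α f hf k p M hp hM
    exact Pool.Agent.H89.ZS.comparable hG hf k hp hM

end Pool.Agent.Results.MP_8a09e6_an.HoelderZeroSets
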